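import Pool.Agent.MalF.FFin

set_option autoImplicit false

namespace Pool.Agent.Results.MP_3f4c28_al.PowersStabilise

open Pool.Agent.MalF (FreeMalcev powAlg InVar)

universe u w

/-- Let `F` be a field of characteristic zero and `A` the free Malcev algebra over `F` on a countably
infinite set. From some `N` on, the powers `A ^ n`, as algebras in their own right, generate the same
variety: an algebra `C` lies in `Var (A ^ n)` if and only if it lies in `Var (A ^ N)`. -/
theorem result (F : Type u) [Field F] [CharZero F] :
    ∃ N : ℕ, 1 ≤ N ∧ ∀ n, N ≤ n → ∀ (C : Type w) [NonUnitalNonAssocRing C] [Module F C]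
      [IsScalarTower F C C] [SMulCommClass F C C],
      InVar F (powAlg F (FreeMalcev F ℕ) n) C ↔ InVar F (powAlg F (FreeMalcev F ℕ) N) C :=
  Pool.Agent.MalF.final F

end Pool.Agent.Results.MP_3f4c28_al.PowersStabilise
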